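import Mathlib

/-! If the residual rank of a t.d.l.c.s.c. group is well-defined, the residual order is a
partial order. -/

namespace Pool.Agent.Results.MP_4e651d_al.ResOrder

variable {G : Type*} [Group G] [TopologicalSpace G]

/-- closed and compactly generated -/
def CG (K : Subgroup G) : Prop :=
  IsClosed (K : Set G) ∧ ∃ C : Set G, IsCompact C ∧ Subgroup.closure C = K

/-- the discrete residual -/
def Res (K : Subgroup G) : Subgroup G :=
  sInf {O : Subgroup G | IsOpen (O : Set G) ∧
    ∀ k ∈ K, (fun x => k * x) '' (O : Set G) = (fun x => x * k) '' (O : Set G)}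

/-- the residual order -/
def ResLe (K L : Subgroup G) : Prop := K ≤ Res L ∨ K = L

open Classical in
/-- the residual hierarchy -/
noncomputable def hier (G : Type*) [Group G] [TopologicalSpace G] :
    Ordinal.{0} → Set (Subgroup G) :=
  WellFounded.fix wellFounded_lt fun α rec =>
    if α = 0 then {⊥} else if α = 1 then {K | CG K ∧ Res K = ⊥}
    else {K | CG K ∧ ∀ L, CG L → ResLe L K → L ≠ K → ∃ β, ∃ h : β < α, L ∈ rec β h}

theorem res_le {K L : Subgroup G} (h : K ≤ Res L) : Res K ≤ Res L := by
  refine le_sInf fun O hO => sInf_le ⟨hO.1, fun k hk => ?_⟩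
  have hk' : k ∈ O := (h.trans (sInf_le hO)) hk
  ext y
  constructor
  · rintro ⟨x, hx, rfl⟩
    exact ⟨k * x * k⁻¹, O.mul_mem (O.mul_mem hk' hx) (O.inv_mem hk'), by simp⟩
  · rintro ⟨x, hx, rfl⟩
    exact ⟨k⁻¹ * x * k, O.mul_mem (O.mul_mem (O.inv_mem hk') hx) hk', by simp [mul_assoc]⟩

open Pointwise Topology in
theorem res_bot [IsTopologicalGroup G] [T2Space G] [TotallyDisconnectedSpace G]
    [LocallyCompactSpace G] : Res (⊥ : Subgroup G) = ⊥ := by
  refine eq_bot_iff.2 fun g hg => ?_
  by_contra hne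
  have hne' : (1 : G) ∈ ({g}ᶜ : Set G) := fun h => hne (by simpa using h.symm)
  obtain ⟨C, hC, hC1⟩ := exists_compact_mem_nhds (1 : G)
  obtain ⟨W, hW, h1, hsub⟩ := loc_compact_Haus_tot_disc_of_zero_dim.mem_nhds_iff.1
    (Filter.inter_mem hC1 (isOpen_compl_singleton.mem_nhds hne'))
  have hWc : IsCompact W := hC.of_isClosed_subset hW.1 fun x hx => (hsub hx).1
  obtain ⟨V, hV, hWV⟩ := compact_open_separated_mul_right hWc hW.2 subset_rfl
  let H : Subgroup G :=
    { carrier := {x | ∀ w, w ∈ W ↔ w * x ∈ W}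
      one_mem' := by simp
      mul_mem' := fun {a b} ha hb w => by rw [ha w, hb (w * a), mul_assoc]
      inv_mem' := fun {a} ha w => by rw [ha (w * a⁻¹)]; simp }
  have hH : IsOpen (H : Set G) := by
    refine H.isOpen_of_mem_nhds (g := 1) (Filter.mem_of_superset
      (Filter.inter_mem hV (inv_mem_nhds_one G hV)) fun x hx w => ⟨fun h => ?_, fun h => ?_⟩)
    · exact hWV (Set.mul_mem_mul h hx.1)
    · simpa using hWV (Set.mul_mem_mul h (Set.mem_inv.1 hx.2))
  have : g ∈ H := (sInf_le (s := {O : Subgroup G | IsOpen (O : Set G) ∧ ∀ k ∈ (⊥ : Subgroup G),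
    (fun x => k * x) '' (O : Set G) = (fun x => x * k) '' (O : Set G)})
    ⟨hH, fun k hk => by simp [Subgroup.mem_bot.1 hk]⟩) hg
  exact (hsub (by simpa using (this 1).1 h1)).2 rfl

theorem result (G : Type*) [Group G] [TopologicalSpace G] [IsTopologicalGroup G] [T2Space G]
    [TotallyDisconnectedSpace G] [LocallyCompactSpace G] [SecondCountableTopology G]
    (h : {K : Subgroup G | CG K} = ⋃ α < Ordinal.omega 1, hier G α) :
    (∀ K : Subgroup G, CG K → ResLe K K) ∧
    (∀ K L : Subgroup G, CG K → CG L → ResLe K L → ResLe L K → K = L) ∧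
    ∀ K L M : Subgroup G, CG K → CG L → CG M → ResLe K L → ResLe L M → ResLe K M := by
  classical
  refine ⟨fun K _ => Or.inr rfl, ?_, ?_⟩
  · have key : ∀ α : Ordinal.{0}, ∀ K ∈ hier G α, ∀ L, CG K → CG L → ResLe K L → ResLe L K →
        K = L := by
      intro α
      induction α using WellFoundedLT.induction with
      | ind α ih =>
        intro K hK L cK cL h1 h2
        by_contra hne
        have a1 : K ≤ Res L := h1.resolve_right hne
        have a2 : L ≤ Res K := h2.resolve_right (Ne.symm hne)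
        have fin : Res K = ⊥ → False := fun e => by
          have eL : L = ⊥ := eq_bot_iff.2 (e ▸ a2)
          rw [eL, res_bot] at a1
          exact hne ((eq_bot_iff.2 a1).trans eL.symm)
        rw [hier, WellFounded.fix_eq] at hK
        split_ifs at hK with e0 e1
        · exact fin (by rw [Set.mem_singleton_iff.1 hK, res_bot])
        · exact fin hK.2
        · obtain ⟨β, hβ, hL⟩ := hK.2 L cL h2 (Ne.symm hne)
          exact hne (ih β hβ L hL K cL cK h2 h1).symm
    intro K L cK
    have : K ∈ ⋃ α < Ordinal.omega 1, hier G α := h ▸ cK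
    simp only [Set.mem_iUnion] at this
    obtain ⟨α, -, hK⟩ := this
    exact key α K hK L cK
  · rintro K L M - - - (h1 | rfl) (h2 | rfl)
    · exact Or.inl (h1.trans (res_le h2))
    · exact Or.inl h1
    · exact Or.inl h2
    · exact Or.inr rfl

end Pool.Agent.Results.MP_4e651d_al.ResOrder
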